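import Pool.Agent.Helper94.CXF.KN
import Pool.Agent.Helper94.CXF.Cheb

/-!
FARL, row TAB: the tables of the kernel checker.
-/

set_option autoImplicit false
noncomputable section
namespace Pool.Agent.Helper94.CXF.SD

open Pool.Agent.Helper6.MONO
open Pool.Agent.Helper94.CXF

theorem tab_mkU {M j : ℕ} {κ p : ℝ} (N : ℕ) (hN : KN.nth (KN.nthL KN.tu M) j = N)
    (hu : uC κ j = p) (a : (N : ℝ) - 16 ≤ 2 ^ 48 * p) (b : 2 ^ 48 * p ≤ (N : ℝ) + 16)
    (c : 0 ≤ p) (d : p ≤ 3) :
    |((KN.nth (KN.nthL KN.tu M) j : ℕ) : ℝ) - 2 ^ 48 * uC κ j| ≤ 16 ∧ 0 ≤ uC κ j ∧ uC κ j ≤ 3 := by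
  rw [hN, hu, abs_le]
  exact ⟨⟨by linarith, by linarith⟩, c, d⟩

theorem tab_mkE {M j : ℕ} {κ p : ℝ} (N : ℕ) (hN : KN.nth (KN.nthL KN.te M) j = N)
    (hu : eC κ j = p) (a : (N : ℝ) - 24 ≤ 2 ^ 48 * p) (b : 2 ^ 48 * p ≤ (N : ℝ) + 24)
    (c : 0 ≤ p) (d : p ≤ 9) :
    |((KN.nth (KN.nthL KN.te M) j : ℕ) : ℝ) - 2 ^ 48 * eC κ j| ≤ 24 ∧ 0 ≤ eC κ j ∧ eC κ j ≤ 9 := by
  rw [hN, hu, abs_le]
  exact ⟨⟨by linarith, by linarith⟩, c, d⟩

/-- enclosure of `κ`, `κ ^ 2`, `κ ^ 3` -/
theorem tab_enc {M : ℕ} (h3 : 3 ≤ M) (h9 : M ≤ 9) (K : ℝ) (hK : (kb M : ℝ) = K) (hK1 : 1 ≤ K) :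
    K - 1 ≤ 2 ^ 48 * Kp M ∧ 2 ^ 48 * Kp M ≤ K + 1 ∧
    (K - 1) ^ 2 ≤ 2 ^ 96 * Kp M ^ 2 ∧ 2 ^ 96 * Kp M ^ 2 ≤ (K + 1) ^ 2 ∧
    (K - 1) ^ 3 ≤ 2 ^ 144 * Kp M ^ 3 ∧ 2 ^ 144 * Kp M ^ 3 ≤ (K + 1) ^ 3 := by
  have h := abs_le.1 (kap_enc M h3 (by omega))
  rw [hK] at h
  obtain ⟨a, b⟩ := h
  have e1 : K / 2 ^ 48 * 2 ^ 48 = K := by field_simp
  have c1 : K - 1 ≤ 2 ^ 48 * Kp M := by
    have e2 : (1 : ℝ) / 2 ^ 48 * 2 ^ 48 = 1 := by norm_num
    nlinarith
  have c2 : 2 ^ 48 * Kp M ≤ K + 1 := by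
    have e2 : (1 : ℝ) / 2 ^ 48 * 2 ^ 48 = 1 := by norm_num
    nlinarith
  have k0 : 0 ≤ K - 1 := by linarith
  have k1 : 0 ≤ 2 ^ 48 * Kp M := k0.trans c1
  refine ⟨c1, c2, ?_, ?_, ?_, ?_⟩
  · calc (K - 1) ^ 2 ≤ (2 ^ 48 * Kp M) ^ 2 := pow_le_pow_left₀ k0 c1 2
      _ = 2 ^ 96 * Kp M ^ 2 := by ring
  · calc 2 ^ 96 * Kp M ^ 2 = (2 ^ 48 * Kp M) ^ 2 := by ring
      _ ≤ (K + 1) ^ 2 := pow_le_pow_left₀ k1 c2 2
  · calc (K - 1) ^ 3 ≤ (2 ^ 48 * Kp M) ^ 3 := pow_le_pow_left₀ k0 c1 3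
      _ = 2 ^ 144 * Kp M ^ 3 := by ring
  · calc 2 ^ 144 * Kp M ^ 3 = (2 ^ 48 * Kp M) ^ 3 := by ring
      _ ≤ (K + 1) ^ 3 := pow_le_pow_left₀ k1 c2 3

theorem tab3 :
    (∀ j : ℕ, j ≤ 3 → |((KN.nth (KN.nthL KN.tu 3) j : ℕ) : ℝ) - 2 ^ 48 * uC (Kp 3) j| ≤ 16 ∧
      0 ≤ uC (Kp 3) j ∧ uC (Kp 3) j ≤ 3) ∧
    ∀ j : ℕ, j + 1 ≤ 3 → |((KN.nth (KN.nthL KN.te 3) j : ℕ) : ℝ) - 2 ^ 48 * eC (Kp 3) j| ≤ 24 ∧
      0 ≤ eC (Kp 3) j ∧ eC (Kp 3) j ≤ 9 := by
  obtain ⟨h1, h2, h3, h4, h5, h6⟩ := tab_enc (M := 3) (by norm_num) (by norm_num) 281474976710656 (by norm_num [kb])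
    (by norm_num)
  have hm := Kp3
  generalize Kp 3 = κ at *
  have hm0 : κ - 1 = 0 := by linarith
  norm_num at h3 h4 h5 h6
  have u0 : uC κ 0 = 0 := rfl
  have u1 : uC κ 1 = 1 := rfl
  have u2 : uC κ 2 = 1 := by
    rw [show uC κ 2 = κ * uC κ 1 - uC κ 0 from rfl, u1, u0]
    linear_combination (1) * hm0
  have u3 : uC κ 3 = 0 := by
    rw [show uC κ 3 = κ * uC κ 2 - uC κ 1 from rfl, u2, u1]
    linear_combination (1) * hm0
  have e0 : eC κ 0 = 0 := rfl
  have e1 : eC κ 1 = 1 := rfl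
  have e2 : eC κ 2 = 1 := by
    rw [show eC κ 2 = uC κ 2 + eC κ 0 from rfl, u2, e0] <;> ring
  constructor
  · intro j hj
    interval_cases j
    · exact tab_mkU 0 rfl u0 (by norm_num <;> linarith) (by norm_num <;> linarith) (by linarith) (by linarith)
    · exact tab_mkU 281474976710656 rfl u1 (by norm_num <;> linarith) (by norm_num <;> linarith) (by linarith) (by linarith)
    · exact tab_mkU 281474976710656 rfl u2 (by norm_num <;> linarith) (by norm_num <;> linarith) (by linarith) (by linarith)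
    · exact tab_mkU 0 rfl u3 (by norm_num <;> linarith) (by norm_num <;> linarith) (by linarith) (by linarith)
  · intro j hj
    have hj2 : j ≤ 2 := by omega
    clear hj
    interval_cases j
    · exact tab_mkE 0 rfl e0 (by norm_num <;> linarith) (by norm_num <;> linarith) (by linarith) (by linarith)
    · exact tab_mkE 281474976710656 rfl e1 (by norm_num <;> linarith) (by norm_num <;> linarith) (by linarith) (by linarith)
    · exact tab_mkE 281474976710656 rfl e2 (by norm_num <;> linarith) (by norm_num <;> linarith) (by linarith) (by linarith)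

theorem tab4 :
    (∀ j : ℕ, j ≤ 4 → |((KN.nth (KN.nthL KN.tu 4) j : ℕ) : ℝ) - 2 ^ 48 * uC (Kp 4) j| ≤ 16 ∧
      0 ≤ uC (Kp 4) j ∧ uC (Kp 4) j ≤ 3) ∧
    ∀ j : ℕ, j + 1 ≤ 4 → |((KN.nth (KN.nthL KN.te 4) j : ℕ) : ℝ) - 2 ^ 48 * eC (Kp 4) j| ≤ 24 ∧
      0 ≤ eC (Kp 4) j ∧ eC (Kp 4) j ≤ 9 := by
  obtain ⟨h1, h2, h3, h4, h5, h6⟩ := tab_enc (M := 4) (by norm_num) (by norm_num) 398065729532861 (by norm_num [kb])
    (by norm_num)
  have hm := Kp4_sq
  generalize Kp 4 = κ at *
  have hm0 : κ ^ 2 - 2 = 0 := by linarith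
  norm_num at h3 h4 h5 h6
  have u0 : uC κ 0 = 0 := rfl
  have u1 : uC κ 1 = 1 := rfl
  have u2 : uC κ 2 = 1 * κ := by
    rw [show uC κ 2 = κ * uC κ 1 - uC κ 0 from rfl, u1, u0]
    linear_combination (0) * hm0
  have u3 : uC κ 3 = 1 := by
    rw [show uC κ 3 = κ * uC κ 2 - uC κ 1 from rfl, u2, u1]
    linear_combination (1) * hm0
  have u4 : uC κ 4 = 0 := by
    rw [show uC κ 4 = κ * uC κ 3 - uC κ 2 from rfl, u3, u2]
    linear_combination (0) * hm0
  have e0 : eC κ 0 = 0 := rfl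
  have e1 : eC κ 1 = 1 := rfl
  have e2 : eC κ 2 = 1 * κ := by
    rw [show eC κ 2 = uC κ 2 + eC κ 0 from rfl, u2, e0] <;> ring
  have e3 : eC κ 3 = 2 := by
    rw [show eC κ 3 = uC κ 3 + eC κ 1 from rfl, u3, e1] <;> ring
  constructor
  · intro j hj
    interval_cases j
    · exact tab_mkU 0 rfl u0 (by norm_num <;> linarith) (by norm_num <;> linarith) (by linarith) (by linarith)
    · exact tab_mkU 281474976710656 rfl u1 (by norm_num <;> linarith) (by norm_num <;> linarith) (by linarith) (by linarith)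
    · exact tab_mkU 398065729532861 rfl u2 (by norm_num <;> linarith) (by norm_num <;> linarith) (by linarith) (by linarith)
    · exact tab_mkU 281474976710656 rfl u3 (by norm_num <;> linarith) (by norm_num <;> linarith) (by linarith) (by linarith)
    · exact tab_mkU 0 rfl u4 (by norm_num <;> linarith) (by norm_num <;> linarith) (by linarith) (by linarith)
  · intro j hj
    have hj2 : j ≤ 3 := by omega
    clear hj
    interval_cases j
    · exact tab_mkE 0 rfl e0 (by norm_num <;> linarith) (by norm_num <;> linarith) (by linarith) (by linarith)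
    · exact tab_mkE 281474976710656 rfl e1 (by norm_num <;> linarith) (by norm_num <;> linarith) (by linarith) (by linarith)
    · exact tab_mkE 398065729532861 rfl e2 (by norm_num <;> linarith) (by norm_num <;> linarith) (by linarith) (by linarith)
    · exact tab_mkE 562949953421312 rfl e3 (by norm_num <;> linarith) (by norm_num <;> linarith) (by linarith) (by linarith)

theorem tab5 :
    (∀ j : ℕ, j ≤ 5 → |((KN.nth (KN.nthL KN.tu 5) j : ℕ) : ℝ) - 2 ^ 48 * uC (Kp 5) j| ≤ 16 ∧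
      0 ≤ uC (Kp 5) j ∧ uC (Kp 5) j ≤ 3) ∧
    ∀ j : ℕ, j + 1 ≤ 5 → |((KN.nth (KN.nthL KN.te 5) j : ℕ) : ℝ) - 2 ^ 48 * eC (Kp 5) j| ≤ 24 ∧
      0 ≤ eC (Kp 5) j ∧ eC (Kp 5) j ≤ 9 := by
  obtain ⟨h1, h2, h3, h4, h5, h6⟩ := tab_enc (M := 5) (by norm_num) (by norm_num) 455436079300426 (by norm_num [kb])
    (by norm_num)
  have hm := Kp5_eq
  generalize Kp 5 = κ at *
  have hm0 := hm
  norm_num at h3 h4 h5 h6
  have u0 : uC κ 0 = 0 := rfl
  have u1 : uC κ 1 = 1 := rfl
  have u2 : uC κ 2 = 1 * κ := by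
    rw [show uC κ 2 = κ * uC κ 1 - uC κ 0 from rfl, u1, u0]
    linear_combination (0) * hm0
  have u3 : uC κ 3 = 1 * κ := by
    rw [show uC κ 3 = κ * uC κ 2 - uC κ 1 from rfl, u2, u1]
    linear_combination (1) * hm0
  have u4 : uC κ 4 = 1 := by
    rw [show uC κ 4 = κ * uC κ 3 - uC κ 2 from rfl, u3, u2]
    linear_combination (1) * hm0
  have u5 : uC κ 5 = 0 := by
    rw [show uC κ 5 = κ * uC κ 4 - uC κ 3 from rfl, u4, u3]
    linear_combination (0) * hm0
  have e0 : eC κ 0 = 0 := rfl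
  have e1 : eC κ 1 = 1 := rfl
  have e2 : eC κ 2 = 1 * κ := by
    rw [show eC κ 2 = uC κ 2 + eC κ 0 from rfl, u2, e0] <;> ring
  have e3 : eC κ 3 = 1 * κ + 1 := by
    rw [show eC κ 3 = uC κ 3 + eC κ 1 from rfl, u3, e1] <;> ring
  have e4 : eC κ 4 = 1 * κ + 1 := by
    rw [show eC κ 4 = uC κ 4 + eC κ 2 from rfl, u4, e2] <;> ring
  constructor
  · intro j hj
    interval_cases j
    · exact tab_mkU 0 rfl u0 (by norm_num <;> linarith) (by norm_num <;> linarith) (by linarith) (by linarith)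
    · exact tab_mkU 281474976710656 rfl u1 (by norm_num <;> linarith) (by norm_num <;> linarith) (by linarith) (by linarith)
    · exact tab_mkU 455436079300426 rfl u2 (by norm_num <;> linarith) (by norm_num <;> linarith) (by linarith) (by linarith)
    · exact tab_mkU 455436079300426 rfl u3 (by norm_num <;> linarith) (by norm_num <;> linarith) (by linarith) (by linarith)
    · exact tab_mkU 281474976710656 rfl u4 (by norm_num <;> linarith) (by norm_num <;> linarith) (by linarith) (by linarith)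
    · exact tab_mkU 0 rfl u5 (by norm_num <;> linarith) (by norm_num <;> linarith) (by linarith) (by linarith)
  · intro j hj
    have hj2 : j ≤ 4 := by omega
    clear hj
    interval_cases j
    · exact tab_mkE 0 rfl e0 (by norm_num <;> linarith) (by norm_num <;> linarith) (by linarith) (by linarith)
    · exact tab_mkE 281474976710656 rfl e1 (by norm_num <;> linarith) (by norm_num <;> linarith) (by linarith) (by linarith)
    · exact tab_mkE 455436079300426 rfl e2 (by norm_num <;> linarith) (by norm_num <;> linarith) (by linarith) (by linarith)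
    · exact tab_mkE 736911056011082 rfl e3 (by norm_num <;> linarith) (by norm_num <;> linarith) (by linarith) (by linarith)
    · exact tab_mkE 736911056011082 rfl e4 (by norm_num <;> linarith) (by norm_num <;> linarith) (by linarith) (by linarith)

theorem tab6 :
    (∀ j : ℕ, j ≤ 6 → |((KN.nth (KN.nthL KN.tu 6) j : ℕ) : ℝ) - 2 ^ 48 * uC (Kp 6) j| ≤ 16 ∧
      0 ≤ uC (Kp 6) j ∧ uC (Kp 6) j ≤ 3) ∧
    ∀ j : ℕ, j + 1 ≤ 6 → |((KN.nth (KN.nthL KN.te 6) j : ℕ) : ℝ) - 2 ^ 48 * eC (Kp 6) j| ≤ 24 ∧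
      0 ≤ eC (Kp 6) j ∧ eC (Kp 6) j ≤ 9 := by
  obtain ⟨h1, h2, h3, h4, h5, h6⟩ := tab_enc (M := 6) (by norm_num) (by norm_num) 487528960722123 (by norm_num [kb])
    (by norm_num)
  have hm := Kp6_sq
  generalize Kp 6 = κ at *
  have hm0 : κ ^ 2 - 3 = 0 := by linarith
  norm_num at h3 h4 h5 h6
  have u0 : uC κ 0 = 0 := rfl
  have u1 : uC κ 1 = 1 := rfl
  have u2 : uC κ 2 = 1 * κ := by
    rw [show uC κ 2 = κ * uC κ 1 - uC κ 0 from rfl, u1, u0]
    linear_combination (0) * hm0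
  have u3 : uC κ 3 = 2 := by
    rw [show uC κ 3 = κ * uC κ 2 - uC κ 1 from rfl, u2, u1]
    linear_combination (1) * hm0
  have u4 : uC κ 4 = 1 * κ := by
    rw [show uC κ 4 = κ * uC κ 3 - uC κ 2 from rfl, u3, u2]
    linear_combination (0) * hm0
  have u5 : uC κ 5 = 1 := by
    rw [show uC κ 5 = κ * uC κ 4 - uC κ 3 from rfl, u4, u3]
    linear_combination (1) * hm0
  have u6 : uC κ 6 = 0 := by
    rw [show uC κ 6 = κ * uC κ 5 - uC κ 4 from rfl, u5, u4]
    linear_combination (0) * hm0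
  have e0 : eC κ 0 = 0 := rfl
  have e1 : eC κ 1 = 1 := rfl
  have e2 : eC κ 2 = 1 * κ := by
    rw [show eC κ 2 = uC κ 2 + eC κ 0 from rfl, u2, e0] <;> ring
  have e3 : eC κ 3 = 3 := by
    rw [show eC κ 3 = uC κ 3 + eC κ 1 from rfl, u3, e1] <;> ring
  have e4 : eC κ 4 = 2 * κ := by
    rw [show eC κ 4 = uC κ 4 + eC κ 2 from rfl, u4, e2] <;> ring
  have e5 : eC κ 5 = 4 := by
    rw [show eC κ 5 = uC κ 5 + eC κ 3 from rfl, u5, e3] <;> ring
  constructor
  · intro j hj
    interval_cases j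
    · exact tab_mkU 0 rfl u0 (by norm_num <;> linarith) (by norm_num <;> linarith) (by linarith) (by linarith)
    · exact tab_mkU 281474976710656 rfl u1 (by norm_num <;> linarith) (by norm_num <;> linarith) (by linarith) (by linarith)
    · exact tab_mkU 487528960722123 rfl u2 (by norm_num <;> linarith) (by norm_num <;> linarith) (by linarith) (by linarith)
    · exact tab_mkU 562949953421312 rfl u3 (by norm_num <;> linarith) (by norm_num <;> linarith) (by linarith) (by linarith)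
    · exact tab_mkU 487528960722123 rfl u4 (by norm_num <;> linarith) (by norm_num <;> linarith) (by linarith) (by linarith)
    · exact tab_mkU 281474976710656 rfl u5 (by norm_num <;> linarith) (by norm_num <;> linarith) (by linarith) (by linarith)
    · exact tab_mkU 0 rfl u6 (by norm_num <;> linarith) (by norm_num <;> linarith) (by linarith) (by linarith)
  · intro j hj
    have hj2 : j ≤ 5 := by omega
    clear hj
    interval_cases j
    · exact tab_mkE 0 rfl e0 (by norm_num <;> linarith) (by norm_num <;> linarith) (by linarith) (by linarith)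
    · exact tab_mkE 281474976710656 rfl e1 (by norm_num <;> linarith) (by norm_num <;> linarith) (by linarith) (by linarith)
    · exact tab_mkE 487528960722123 rfl e2 (by norm_num <;> linarith) (by norm_num <;> linarith) (by linarith) (by linarith)
    · exact tab_mkE 844424930131968 rfl e3 (by norm_num <;> linarith) (by norm_num <;> linarith) (by linarith) (by linarith)
    · exact tab_mkE 975057921444245 rfl e4 (by norm_num <;> linarith) (by norm_num <;> linarith) (by linarith) (by linarith)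
    · exact tab_mkE 1125899906842624 rfl e5 (by norm_num <;> linarith) (by norm_num <;> linarith) (by linarith) (by linarith)

theorem tab7 :
    (∀ j : ℕ, j ≤ 7 → |((KN.nth (KN.nthL KN.tu 7) j : ℕ) : ℝ) - 2 ^ 48 * uC (Kp 7) j| ≤ 16 ∧
      0 ≤ uC (Kp 7) j ∧ uC (Kp 7) j ≤ 3) ∧
    ∀ j : ℕ, j + 1 ≤ 7 → |((KN.nth (KN.nthL KN.te 7) j : ℕ) : ℝ) - 2 ^ 48 * eC (Kp 7) j| ≤ 24 ∧
      0 ≤ eC (Kp 7) j ∧ eC (Kp 7) j ≤ 9 := by
  obtain ⟨h1, h2, h3, h4, h5, h6⟩ := tab_enc (M := 7) (by norm_num) (by norm_num) 507200382219719 (by norm_num [kb])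
    (by norm_num)
  have hm := Kp7_eq
  generalize Kp 7 = κ at *
  have hm0 := hm
  norm_num at h3 h4 h5 h6
  have u0 : uC κ 0 = 0 := rfl
  have u1 : uC κ 1 = 1 := rfl
  have u2 : uC κ 2 = 1 * κ := by
    rw [show uC κ 2 = κ * uC κ 1 - uC κ 0 from rfl, u1, u0]
    linear_combination (0) * hm0
  have u3 : uC κ 3 = 1 * κ ^ 2 - 1 := by
    rw [show uC κ 3 = κ * uC κ 2 - uC κ 1 from rfl, u2, u1]
    linear_combination (0) * hm0
  have u4 : uC κ 4 = 1 * κ ^ 2 - 1 := by
    rw [show uC κ 4 = κ * uC κ 3 - uC κ 2 from rfl, u3, u2]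
    linear_combination (1) * hm0
  have u5 : uC κ 5 = 1 * κ := by
    rw [show uC κ 5 = κ * uC κ 4 - uC κ 3 from rfl, u4, u3]
    linear_combination (1) * hm0
  have u6 : uC κ 6 = 1 := by
    rw [show uC κ 6 = κ * uC κ 5 - uC κ 4 from rfl, u5, u4]
    linear_combination (0) * hm0
  have u7 : uC κ 7 = 0 := by
    rw [show uC κ 7 = κ * uC κ 6 - uC κ 5 from rfl, u6, u5]
    linear_combination (0) * hm0
  have e0 : eC κ 0 = 0 := rfl
  have e1 : eC κ 1 = 1 := rfl
  have e2 : eC κ 2 = 1 * κ := by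
    rw [show eC κ 2 = uC κ 2 + eC κ 0 from rfl, u2, e0] <;> ring
  have e3 : eC κ 3 = 1 * κ ^ 2 := by
    rw [show eC κ 3 = uC κ 3 + eC κ 1 from rfl, u3, e1] <;> ring
  have e4 : eC κ 4 = 1 * κ ^ 2 + 1 * κ - 1 := by
    rw [show eC κ 4 = uC κ 4 + eC κ 2 from rfl, u4, e2] <;> ring
  have e5 : eC κ 5 = 1 * κ ^ 2 + 1 * κ := by
    rw [show eC κ 5 = uC κ 5 + eC κ 3 from rfl, u5, e3] <;> ring
  have e6 : eC κ 6 = 1 * κ ^ 2 + 1 * κ := by
    rw [show eC κ 6 = uC κ 6 + eC κ 4 from rfl, u6, e4] <;> ring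
  constructor
  · intro j hj
    interval_cases j
    · exact tab_mkU 0 rfl u0 (by norm_num <;> linarith) (by norm_num <;> linarith) (by linarith) (by linarith)
    · exact tab_mkU 281474976710656 rfl u1 (by norm_num <;> linarith) (by norm_num <;> linarith) (by linarith) (by linarith)
    · exact tab_mkU 507200382219719 rfl u2 (by norm_num <;> linarith) (by norm_num <;> linarith) (by linarith) (by linarith)
    · exact tab_mkU 632468531625693 rfl u3 (by norm_num <;> linarith) (by norm_num <;> linarith) (by linarith) (by linarith)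
    · exact tab_mkU 632468531625693 rfl u4 (by norm_num <;> linarith) (by norm_num <;> linarith) (by linarith) (by linarith)
    · exact tab_mkU 507200382219719 rfl u5 (by norm_num <;> linarith) (by norm_num <;> linarith) (by linarith) (by linarith)
    · exact tab_mkU 281474976710656 rfl u6 (by norm_num <;> linarith) (by norm_num <;> linarith) (by linarith) (by linarith)
    · exact tab_mkU 0 rfl u7 (by norm_num <;> linarith) (by norm_num <;> linarith) (by linarith) (by linarith)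
  · intro j hj
    have hj2 : j ≤ 6 := by omega
    clear hj
    interval_cases j
    · exact tab_mkE 0 rfl e0 (by norm_num <;> linarith) (by norm_num <;> linarith) (by linarith) (by linarith)
    · exact tab_mkE 281474976710656 rfl e1 (by norm_num <;> linarith) (by norm_num <;> linarith) (by linarith) (by linarith)
    · exact tab_mkE 507200382219719 rfl e2 (by norm_num <;> linarith) (by norm_num <;> linarith) (by linarith) (by linarith)
    · exact tab_mkE 913943508336349 rfl e3 (by norm_num <;> linarith) (by norm_num <;> linarith) (by linarith) (by linarith)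
    · exact tab_mkE 1139668913845412 rfl e4 (by norm_num <;> linarith) (by norm_num <;> linarith) (by linarith) (by linarith)
    · exact tab_mkE 1421143890556068 rfl e5 (by norm_num <;> linarith) (by norm_num <;> linarith) (by linarith) (by linarith)
    · exact tab_mkE 1421143890556068 rfl e6 (by norm_num <;> linarith) (by norm_num <;> linarith) (by linarith) (by linarith)

theorem tab8 :
    (∀ j : ℕ, j ≤ 8 → |((KN.nth (KN.nthL KN.tu 8) j : ℕ) : ℝ) - 2 ^ 48 * uC (Kp 8) j| ≤ 16 ∧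
      0 ≤ uC (Kp 8) j ∧ uC (Kp 8) j ≤ 3) ∧
    ∀ j : ℕ, j + 1 ≤ 8 → |((KN.nth (KN.nthL KN.te 8) j : ℕ) : ℝ) - 2 ^ 48 * eC (Kp 8) j| ≤ 24 ∧
      0 ≤ eC (Kp 8) j ∧ eC (Kp 8) j ≤ 9 := by
  obtain ⟨h1, h2, h3, h4, h5, h6⟩ := tab_enc (M := 8) (by norm_num) (by norm_num) 520097939794132 (by norm_num [kb])
    (by norm_num)
  have hm := Kp8_eq
  generalize Kp 8 = κ at *
  have hm0 := hm
  norm_num at h3 h4 h5 h6
  have u0 : uC κ 0 = 0 := rfl
  have u1 : uC κ 1 = 1 := rfl
  have u2 : uC κ 2 = 1 * κ := by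
    rw [show uC κ 2 = κ * uC κ 1 - uC κ 0 from rfl, u1, u0]
    linear_combination (0) * hm0
  have u3 : uC κ 3 = 1 * κ ^ 2 - 1 := by
    rw [show uC κ 3 = κ * uC κ 2 - uC κ 1 from rfl, u2, u1]
    linear_combination (0) * hm0
  have u4 : uC κ 4 = 1 * κ ^ 3 - 2 * κ := by
    rw [show uC κ 4 = κ * uC κ 3 - uC κ 2 from rfl, u3, u2]
    linear_combination (0) * hm0
  have u5 : uC κ 5 = 1 * κ ^ 2 - 1 := by
    rw [show uC κ 5 = κ * uC κ 4 - uC κ 3 from rfl, u4, u3]
    linear_combination (1) * hm0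
  have u6 : uC κ 6 = 1 * κ := by
    rw [show uC κ 6 = κ * uC κ 5 - uC κ 4 from rfl, u5, u4]
    linear_combination (0) * hm0
  have u7 : uC κ 7 = 1 := by
    rw [show uC κ 7 = κ * uC κ 6 - uC κ 5 from rfl, u6, u5]
    linear_combination (0) * hm0
  have u8 : uC κ 8 = 0 := by
    rw [show uC κ 8 = κ * uC κ 7 - uC κ 6 from rfl, u7, u6]
    linear_combination (0) * hm0
  have e0 : eC κ 0 = 0 := rfl
  have e1 : eC κ 1 = 1 := rfl
  have e2 : eC κ 2 = 1 * κ := by
    rw [show eC κ 2 = uC κ 2 + eC κ 0 from rfl, u2, e0] <;> ring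
  have e3 : eC κ 3 = 1 * κ ^ 2 := by
    rw [show eC κ 3 = uC κ 3 + eC κ 1 from rfl, u3, e1] <;> ring
  have e4 : eC κ 4 = 1 * κ ^ 3 - 1 * κ := by
    rw [show eC κ 4 = uC κ 4 + eC κ 2 from rfl, u4, e2] <;> ring
  have e5 : eC κ 5 = 2 * κ ^ 2 - 1 := by
    rw [show eC κ 5 = uC κ 5 + eC κ 3 from rfl, u5, e3] <;> ring
  have e6 : eC κ 6 = 1 * κ ^ 3 := by
    rw [show eC κ 6 = uC κ 6 + eC κ 4 from rfl, u6, e4] <;> ring
  have e7 : eC κ 7 = 2 * κ ^ 2 := by
    rw [show eC κ 7 = uC κ 7 + eC κ 5 from rfl, u7, e5] <;> ring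
  constructor
  · intro j hj
    interval_cases j
    · exact tab_mkU 0 rfl u0 (by norm_num <;> linarith) (by norm_num <;> linarith) (by linarith) (by linarith)
    · exact tab_mkU 281474976710656 rfl u1 (by norm_num <;> linarith) (by norm_num <;> linarith) (by linarith) (by linarith)
    · exact tab_mkU 520097939794132 rfl u2 (by norm_num <;> linarith) (by norm_num <;> linarith) (by linarith) (by linarith)
    · exact tab_mkU 679540706243517 rfl u3 (by norm_num <;> linarith) (by norm_num <;> linarith) (by linarith) (by linarith)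
    · exact tab_mkU 735529560219167 rfl u4 (by norm_num <;> linarith) (by norm_num <;> linarith) (by linarith) (by linarith)
    · exact tab_mkU 679540706243517 rfl u5 (by norm_num <;> linarith) (by norm_num <;> linarith) (by linarith) (by linarith)
    · exact tab_mkU 520097939794132 rfl u6 (by norm_num <;> linarith) (by norm_num <;> linarith) (by linarith) (by linarith)
    · exact tab_mkU 281474976710656 rfl u7 (by norm_num <;> linarith) (by norm_num <;> linarith) (by linarith) (by linarith)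
    · exact tab_mkU 0 rfl u8 (by norm_num <;> linarith) (by norm_num <;> linarith) (by linarith) (by linarith)
  · intro j hj
    have hj2 : j ≤ 7 := by omega
    clear hj
    interval_cases j
    · exact tab_mkE 0 rfl e0 (by norm_num <;> linarith) (by norm_num <;> linarith) (by linarith) (by linarith)
    · exact tab_mkE 281474976710656 rfl e1 (by norm_num <;> linarith) (by norm_num <;> linarith) (by linarith) (by linarith)
    · exact tab_mkE 520097939794132 rfl e2 (by norm_num <;> linarith) (by norm_num <;> linarith) (by linarith) (by linarith)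
    · exact tab_mkE 961015682954173 rfl e3 (by norm_num <;> linarith) (by norm_num <;> linarith) (by linarith) (by linarith)
    · exact tab_mkE 1255627500013300 rfl e4 (by norm_num <;> linarith) (by norm_num <;> linarith) (by linarith) (by linarith)
    · exact tab_mkE 1640556389197690 rfl e5 (by norm_num <;> linarith) (by norm_num <;> linarith) (by linarith) (by linarith)
    · exact tab_mkE 1775725439807432 rfl e6 (by norm_num <;> linarith) (by norm_num <;> linarith) (by linarith) (by linarith)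
    · exact tab_mkE 1922031365908346 rfl e7 (by norm_num <;> linarith) (by norm_num <;> linarith) (by linarith) (by linarith)

theorem tab9 :
    (∀ j : ℕ, j ≤ 9 → |((KN.nth (KN.nthL KN.tu 9) j : ℕ) : ℝ) - 2 ^ 48 * uC (Kp 9) j| ≤ 16 ∧
      0 ≤ uC (Kp 9) j ∧ uC (Kp 9) j ≤ 3) ∧
    ∀ j : ℕ, j + 1 ≤ 9 → |((KN.nth (KN.nthL KN.te 9) j : ℕ) : ℝ) - 2 ^ 48 * eC (Kp 9) j| ≤ 24 ∧
      0 ≤ eC (Kp 9) j ∧ eC (Kp 9) j ≤ 9 := by
  obtain ⟨h1, h2, h3, h4, h5, h6⟩ := tab_enc (M := 9) (by norm_num) (by norm_num) 528999917101778 (by norm_num [kb])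
    (by norm_num)
  have hm := Kp9_eq
  generalize Kp 9 = κ at *
  have hm0 := hm
  norm_num at h3 h4 h5 h6
  have u0 : uC κ 0 = 0 := rfl
  have u1 : uC κ 1 = 1 := rfl
  have u2 : uC κ 2 = 1 * κ := by
    rw [show uC κ 2 = κ * uC κ 1 - uC κ 0 from rfl, u1, u0]
    linear_combination (0) * hm0
  have u3 : uC κ 3 = 1 * κ ^ 2 - 1 := by
    rw [show uC κ 3 = κ * uC κ 2 - uC κ 1 from rfl, u2, u1]
    linear_combination (0) * hm0
  have u4 : uC κ 4 = 1 * κ + 1 := by
    rw [show uC κ 4 = κ * uC κ 3 - uC κ 2 from rfl, u3, u2]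
    linear_combination (1) * hm0
  have u5 : uC κ 5 = 1 * κ + 1 := by
    rw [show uC κ 5 = κ * uC κ 4 - uC κ 3 from rfl, u4, u3]
    linear_combination (0) * hm0
  have u6 : uC κ 6 = 1 * κ ^ 2 - 1 := by
    rw [show uC κ 6 = κ * uC κ 5 - uC κ 4 from rfl, u5, u4]
    linear_combination (0) * hm0
  have u7 : uC κ 7 = 1 * κ := by
    rw [show uC κ 7 = κ * uC κ 6 - uC κ 5 from rfl, u6, u5]
    linear_combination (1) * hm0
  have u8 : uC κ 8 = 1 := by
    rw [show uC κ 8 = κ * uC κ 7 - uC κ 6 from rfl, u7, u6]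
    linear_combination (0) * hm0
  have u9 : uC κ 9 = 0 := by
    rw [show uC κ 9 = κ * uC κ 8 - uC κ 7 from rfl, u8, u7]
    linear_combination (0) * hm0
  have e0 : eC κ 0 = 0 := rfl
  have e1 : eC κ 1 = 1 := rfl
  have e2 : eC κ 2 = 1 * κ := by
    rw [show eC κ 2 = uC κ 2 + eC κ 0 from rfl, u2, e0] <;> ring
  have e3 : eC κ 3 = 1 * κ ^ 2 := by
    rw [show eC κ 3 = uC κ 3 + eC κ 1 from rfl, u3, e1] <;> ring
  have e4 : eC κ 4 = 2 * κ + 1 := by
    rw [show eC κ 4 = uC κ 4 + eC κ 2 from rfl, u4, e2] <;> ring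
  have e5 : eC κ 5 = 1 * κ ^ 2 + 1 * κ + 1 := by
    rw [show eC κ 5 = uC κ 5 + eC κ 3 from rfl, u5, e3] <;> ring
  have e6 : eC κ 6 = 1 * κ ^ 2 + 2 * κ := by
    rw [show eC κ 6 = uC κ 6 + eC κ 4 from rfl, u6, e4] <;> ring
  have e7 : eC κ 7 = 1 * κ ^ 2 + 2 * κ + 1 := by
    rw [show eC κ 7 = uC κ 7 + eC κ 5 from rfl, u7, e5] <;> ring
  have e8 : eC κ 8 = 1 * κ ^ 2 + 2 * κ + 1 := by
    rw [show eC κ 8 = uC κ 8 + eC κ 6 from rfl, u8, e6] <;> ring
  constructor
  · intro j hj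
    interval_cases j
    · exact tab_mkU 0 rfl u0 (by norm_num <;> linarith) (by norm_num <;> linarith) (by linarith) (by linarith)
    · exact tab_mkU 281474976710656 rfl u1 (by norm_num <;> linarith) (by norm_num <;> linarith) (by linarith) (by linarith)
    · exact tab_mkU 528999917101778 rfl u2 (by norm_num <;> linarith) (by norm_num <;> linarith) (by linarith) (by linarith)
    · exact tab_mkU 712719660283140 rfl u3 (by norm_num <;> linarith) (by norm_num <;> linarith) (by linarith) (by linarith)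
    · exact tab_mkU 810474893812434 rfl u4 (by norm_num <;> linarith) (by norm_num <;> linarith) (by linarith) (by linarith)
    · exact tab_mkU 810474893812434 rfl u5 (by norm_num <;> linarith) (by norm_num <;> linarith) (by linarith) (by linarith)
    · exact tab_mkU 712719660283140 rfl u6 (by norm_num <;> linarith) (by norm_num <;> linarith) (by linarith) (by linarith)
    · exact tab_mkU 528999917101778 rfl u7 (by norm_num <;> linarith) (by norm_num <;> linarith) (by linarith) (by linarith)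
    · exact tab_mkU 281474976710656 rfl u8 (by norm_num <;> linarith) (by norm_num <;> linarith) (by linarith) (by linarith)
    · exact tab_mkU 0 rfl u9 (by norm_num <;> linarith) (by norm_num <;> linarith) (by linarith) (by linarith)
  · intro j hj
    have hj2 : j ≤ 8 := by omega
    clear hj
    interval_cases j
    · exact tab_mkE 0 rfl e0 (by norm_num <;> linarith) (by norm_num <;> linarith) (by linarith) (by linarith)
    · exact tab_mkE 281474976710656 rfl e1 (by norm_num <;> linarith) (by norm_num <;> linarith) (by linarith) (by linarith)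
    · exact tab_mkE 528999917101778 rfl e2 (by norm_num <;> linarith) (by norm_num <;> linarith) (by linarith) (by linarith)
    · exact tab_mkE 994194636993796 rfl e3 (by norm_num <;> linarith) (by norm_num <;> linarith) (by linarith) (by linarith)
    · exact tab_mkE 1339474810914211 rfl e4 (by norm_num <;> linarith) (by norm_num <;> linarith) (by linarith) (by linarith)
    · exact tab_mkE 1804669530806229 rfl e5 (by norm_num <;> linarith) (by norm_num <;> linarith) (by linarith) (by linarith)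
    · exact tab_mkE 2052194471197351 rfl e6 (by norm_num <;> linarith) (by norm_num <;> linarith) (by linarith) (by linarith)
    · exact tab_mkE 2333669447908007 rfl e7 (by norm_num <;> linarith) (by norm_num <;> linarith) (by linarith) (by linarith)
    · exact tab_mkE 2333669447908007 rfl e8 (by norm_num <;> linarith) (by norm_num <;> linarith) (by linarith) (by linarith)

/-- `Kp M` -/
theorem tab_k {M : ℕ} (h3 : 3 ≤ M) (h9 : M ≤ 9) :
    |((KN.nth KN.tk M : ℕ) : ℝ) - 2 ^ 48 * Kp M| ≤ 1 := by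
  have h := abs_le.1 (kap_enc M h3 (by omega))
  have hk : KN.nth KN.tk M = kb M := by
    interval_cases M <;> rfl
  obtain ⟨a, b⟩ := h
  rw [hk]
  have e1 : (kb M : ℝ) / 2 ^ 48 * 2 ^ 48 = kb M := by field_simp
  have e2 : (1 : ℝ) / 2 ^ 48 * 2 ^ 48 = 1 := by norm_num
  rw [abs_le]
  constructor <;> nlinarith

/-- the numbers `u_j` -/
theorem tab_u {M : ℕ} (h3 : 3 ≤ M) (h9 : M ≤ 9) {j : ℕ} (hj : j ≤ M) :
    |((KN.nth (KN.nthL KN.tu M) j : ℕ) : ℝ) - 2 ^ 48 * uC (Kp M) j| ≤ 16 ∧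
      0 ≤ uC (Kp M) j ∧ uC (Kp M) j ≤ 3 := by
  interval_cases M
  · exact tab3.1 j hj
  · exact tab4.1 j hj
  · exact tab5.1 j hj
  · exact tab6.1 j hj
  · exact tab7.1 j hj
  · exact tab8.1 j hj
  · exact tab9.1 j hj

/-- the numbers `e_j` -/
theorem tab_e {M : ℕ} (h3 : 3 ≤ M) (h9 : M ≤ 9) {j : ℕ} (hj : j + 1 ≤ M) :
    |((KN.nth (KN.nthL KN.te M) j : ℕ) : ℝ) - 2 ^ 48 * eC (Kp M) j| ≤ 24 ∧
      0 ≤ eC (Kp M) j ∧ eC (Kp M) j ≤ 9 := by
  interval_cases M
  · exact tab3.2 j hj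
  · exact tab4.2 j hj
  · exact tab5.2 j hj
  · exact tab6.2 j hj
  · exact tab7.2 j hj
  · exact tab8.2 j hj
  · exact tab9.2 j hj

end Pool.Agent.Helper94.CXF.SD
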